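import Pool.Agent.Helper65.Inj.JDefs

/-!
The step of the walk, long case (J part of MP_25cd9d_co).
-/

namespace Pool.Agent.Helper22.Inj

open Classical Pool.Agent.Helper65.Inj Pool.Agent.Helper65.Inj.Cub

variable {A B : Type} {H : Cub A B}

theorem rc_symm {J : Finset A} {a b : A} (h : H.Rc J a b) : H.Rc J b a := by
  induction h with
  | refl => exact Relation.ReflTransGen.refl
  | tail _ h2 ih =>
    obtain ⟨r, hr⟩ := h2
    exact Relation.ReflTransGen.head ⟨r, hr.symm⟩ ih

theorem tok [Fintype A] [Fintype B] {J : Finset A} {v j k : A} {T b c G : B} (h : XD H J v T b c j k) (hv : v ∈ H.pt G)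
    (hG : H.U J G) : G = T := by
  rcases h.all hv with h1 | h1 | h1
  · exact h1
  · subst h1
    exact absurd h.hj hG.not_P
  · subst h1
    exact absurd h.hk hG.not_P

/-- the traces of all blocks of `a` are the same for `J` and `J'` -/
def Same (H : Cub A B) (J J' : Finset A) (a : A) : Prop :=
  ∀ r, a ∈ H.pt r → ∀ u ∈ H.pt r, (u ∈ J ↔ u ∈ J')

theorem Same.P {J J' : Finset A} {a : A} (h : Same H J J' a) {r : B} (hP : H.P J r a) : H.P J' r a :=
  ⟨hP.1, (h r hP.1 a hP.1).1 hP.2.1, fun u hu hu' => hP.2.2 u hu ((h r hP.1 u hu).2 hu')⟩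

theorem Same.Q {J J' : Finset A} {a u : A} (h : Same H J J' a) {r : B} (hQ : H.Q J r a u) : H.Q J' r a u :=
  ⟨hQ.1, hQ.2.1, hQ.2.2.1, (h r hQ.2.1 a hQ.2.1).1 hQ.2.2.2.1, (h r hQ.2.1 u hQ.2.2.1).1 hQ.2.2.2.2.1,
    fun z hz hz' => hQ.2.2.2.2.2 z hz ((h r hQ.2.1 z hz).2 hz')⟩

theorem Same.lf {J J' : Finset A} {a : A} (h : Same H J J' a) (hl : H.IsLf J a) : H.IsLf J' a := by
  obtain ⟨b, D, F, p, h1⟩ := hl
  exact ⟨b, D, F, p, h.P h1.hb, h.P h1.hF, h.Q h1.hD, h1.bF⟩

theorem Same.two {J J' : Finset A} {a : A} (h : Same H J J' a) (hl : H.Two J a) : H.Two J' a := by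
  obtain ⟨Y1, Y2, y1, y2, h1, h2, h3⟩ := hl
  exact ⟨Y1, Y2, y1, y2, h1, h.Q h2, h.Q h3⟩

/-- the step of the walk, long case -/
theorem st_WSL (hWR : ST_WR) (hR2 : ST_Rot2) (hB : ST_B) (hFr : ST_Fr) (hOR : ST_OR) : ST_WSL := by
  intro A B _ _ H J n w e1 e2 y T D1 D2 x b c j k hW hBad hLP
  have hO : H.Opt J := hW.hJ.1
  have hx := hW.hx
  obtain ⟨D, F, p, hlf⟩ := hx.lf hO
  obtain ⟨D', G, q, hDD', hQ', hPG, hqj, hqk, hpk, hO', hX'⟩ := hR2 A B H J x j k p (T n) b c D F hO hx hlf hLP
  set J' : Finset A := (J \ {p}) ∪ {x} with hJ'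
  have hxJ : x ∉ J := hx.nJ
  have hpJ : p ∈ J := hlf.hD.2.2.2.2.1
  have hjJ : j ∈ J := hx.hj.2.1
  have hkJ : k ∈ J := hx.hk.2.1
  have hpj : p ≠ j := fun h => hlf.hD.1 h.symm
  have hxp : x ≠ p := fun h => hxJ (h ▸ hpJ)
  have hmem : ∀ u, u ∈ J' ↔ (u ∈ J ∧ u ≠ p) ∨ u = x := by
    intro u
    rw [hJ', Finset.mem_union, Finset.mem_sdiff, Finset.mem_singleton, Finset.mem_singleton]
  have hxJ' : x ∈ J' := (hmem x).2 (Or.inr rfl)
  have hpJ' : p ∉ J' := by
    rw [hmem]
    push Not
    exact ⟨fun _ => rfl, hxp.symm⟩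
  have hjJ' : j ∈ J' := (hmem j).2 (Or.inl ⟨hjJ, hpj.symm⟩)
  have hkJ' : k ∈ J' := (hmem k).2 (Or.inl ⟨hkJ, hpk.symm⟩)
  have hntp : H.nt J p := hlf.hD.symm.nt hO.1.2
  have hRjp : H.Rc J j p := Relation.ReflTransGen.single ⟨D, hlf.hD⟩
  have hfr := hFr A B H J x p j k (T n) b c hO hO' hpJ hx hRjp hntp
  obtain ⟨hF', hBad'⟩ := hB A B H J x p j k j q (T n) b c G D D' hW.hJ hBad hO' hpJ hx hX'
  have hwr := hWR A B H J n w e1 e2 y T D1 D2 x b c j k hW
  -- components which are not touched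
  have he1 : ∀ i ≤ n, e1 i ∈ J := fun i hi => (hW.hD1 i hi).2.1
  have he2 : ∀ i ≤ n, e2 i ∈ J := fun i hi => (hW.hD2 i hi).2.1
  have hy : ∀ i < n, y i ∈ J := fun i hi => (hW.hT i hi).2.1
  have hr2 : ∀ i ≤ n, ¬ H.Rc J (e2 i) j := fun i hi h => hwr i hi ((hW.rc i hi).trans h)
  have hry : ∀ i < n, ¬ H.Rc J (y i) j := fun i hi h =>
    hwr (i + 1) hi ((rc_symm (hW.yrc i hi)).trans h)
  have s1 : ∀ i ≤ n, Same H J J' (e1 i) := fun i hi => (hfr (e1 i) (he1 i hi) (hwr i hi)).2.1
  have s2 : ∀ i ≤ n, Same H J J' (e2 i) := fun i hi => (hfr (e2 i) (he2 i hi) (hr2 i hi)).2.1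
  have sy : ∀ i < n, Same H J J' (y i) := fun i hi => (hfr (y i) (hy i hi) (hry i hi)).2.1
  have r1 : ∀ i ≤ n, ∀ u, H.Rc J (e1 i) u ↔ H.Rc J' (e1 i) u := fun i hi => (hfr (e1 i) (he1 i hi) (hwr i hi)).2.2
  have ry : ∀ i < n, ∀ u, H.Rc J (y i) u ↔ H.Rc J' (y i) u := fun i hi => (hfr (y i) (hy i hi) (hry i hi)).2.2
  -- the new pair blocks of x
  have hQb : H.Q J' b x j := by
    refine ⟨fun h => hxJ (h ▸ hjJ), hx.vb, hx.hj.1, hxJ', hjJ', fun r hr hr' => ?_⟩
    rcases (hmem r).1 hr' with h | h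
    · exact Or.inr (hx.hj.2.2 r hr h.1)
    · exact Or.inl h
  have hQc : H.Q J' c x k := by
    refine ⟨fun h => hxJ (h ▸ hkJ), hx.vc, hx.hk.1, hxJ', hkJ', fun r hr hr' => ?_⟩
    rcases (hmem r).1 hr' with h | h
    · exact Or.inr (hx.hk.2.2 r hr h.1)
    · exact Or.inl h
  have hTw : H.Two J' x := ⟨b, c, j, k, hx.bc, hQb, hQc⟩
  have hPT : H.P J' (T n) x := by
    refine ⟨hx.vT, hxJ', fun r hr hr' => ?_⟩
    rcases (hmem r).1 hr' with h | h
    · exact absurd h.1 (hx.hT r hr)
    · exact h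
  have hRjq : H.Rc J' j q := hOR A B H J' j q hO' hjJ' fun s hs => hX'.opp hO' hs
  obtain ⟨D3, F3, p3, hl3⟩ := hX'.lf hO'
  obtain ⟨D4, F4, p4, hl4⟩ := hX'.symm.lf hO'
  -- the new point of the token
  have hnew : ∃ (x' : A) (b' c' : B) (j' k' : A), XD H J' x' G b' c' j' k' ∧ x' ≠ p ∧ H.Hv J' x' ∧
      (H.LP j' k' ∨ H.LP j q) := by
    obtain ⟨hUG, u, v, hu, hv, huv, hHu, hHv, hLg⟩ := hBad'
    by_cases hup : u = p
    · subst hup
      obtain ⟨t, b', c', j', k', hXv⟩ := hHv.1
      have ht : G = t := tok hXv hv hUG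
      subst ht
      refine ⟨v, b', c', j', k', hXv, huv.symm, hHv, Or.inr ?_⟩
      obtain ⟨t, b2, c2, j2, k2, hXu, hlp⟩ := hLg
      have ht : G = t := tok hXu hu hUG
      subst ht
      have hj2 : ∀ (r : B) (z : A), H.P J' r z → u ∈ H.pt r → r ≠ G → (r = D ∧ z = j) ∨ (r = D' ∧ z = q) := by
        intro r z hP hur hrG
        rcases hX'.all hur with h | h | h
        · exact absurd h hrG
        · subst h
          exact Or.inl ⟨rfl, (hP.2.2 j hX'.hj.1 hX'.hj.2.1).symm⟩
        · subst h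
          exact Or.inr ⟨rfl, (hP.2.2 q hX'.hk.1 hX'.hk.2.1).symm⟩
      rcases hj2 b2 j2 hXu.hj hXu.vb hXu.Tb.symm with ⟨h1, h2⟩ | ⟨h1, h2⟩ <;>
        rcases hj2 c2 k2 hXu.hk hXu.vc hXu.Tc.symm with ⟨h3, h4⟩ | ⟨h3, h4⟩
      · exact absurd (h1.trans h3.symm) hXu.bc
      · rw [← h2, ← h4]
        exact hlp
      · rw [← h2, ← h4]
        exact fun r hr => hlp r ⟨hr.2, hr.1⟩
      · exact absurd (h1.trans h3.symm) hXu.bc
    · obtain ⟨t, b', c', j', k', hXu, hlp⟩ := hLg
      have ht : G = t := tok hXu hu hUG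
      subst ht
      exact ⟨u, b', c', j', k', hXu, hup, hHu, Or.inl hlp⟩
  obtain ⟨x', b', c', j', k', hXx, hxp', hHx, hlgo⟩ := hnew
  -- the new functions
  set w' : ℕ → A := Function.update w (n + 1) p with hw'
  set e1' : ℕ → A := Function.update e1 (n + 1) j with he1'
  set e2' : ℕ → A := Function.update e2 (n + 1) q with he2'
  set y' : ℕ → A := Function.update y n x with hy'
  set T' : ℕ → B := Function.update T (n + 1) G with hT'
  set D1' : ℕ → B := Function.update D1 (n + 1) D with hD1'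
  set D2' : ℕ → B := Function.update D2 (n + 1) D' with hD2'
  have uw : ∀ i ≤ n, w' i = w i := fun i hi => Function.update_of_ne (by omega) _ _
  have ue1 : ∀ i ≤ n, e1' i = e1 i := fun i hi => Function.update_of_ne (by omega) _ _
  have ue2 : ∀ i ≤ n, e2' i = e2 i := fun i hi => Function.update_of_ne (by omega) _ _
  have uy : ∀ i < n, y' i = y i := fun i hi => Function.update_of_ne (by omega) _ _
  have uT : ∀ i ≤ n, T' i = T i := fun i hi => Function.update_of_ne (by omega) _ _
  have uD1 : ∀ i ≤ n, D1' i = D1 i := fun i hi => Function.update_of_ne (by omega) _ _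
  have uD2 : ∀ i ≤ n, D2' i = D2 i := fun i hi => Function.update_of_ne (by omega) _ _
  have vw : w' (n + 1) = p := Function.update_self _ _ _
  have ve1 : e1' (n + 1) = j := Function.update_self _ _ _
  have ve2 : e2' (n + 1) = q := Function.update_self _ _ _
  have vy : y' n = x := Function.update_self _ _ _
  have vT : T' (n + 1) = G := Function.update_self _ _ _
  have vD1 : D1' (n + 1) = D := Function.update_self _ _ _
  have vD2 : D2' (n + 1) = D' := Function.update_self _ _ _
  have le_cases : ∀ i ≤ n + 1, i ≤ n ∨ i = n + 1 := fun i hi => by omega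
  have lt_cases : ∀ i < n + 1, i < n ∨ i = n := fun i hi => by omega
  refine ⟨J', w', e1', e2', y', T', D1', D2', x', b', c', j', k', ?_, ?_⟩
  · refine
      { hJ := hF'
        wT := ?_
        wD1 := ?_
        wD2 := ?_
        TD1 := ?_
        TD2 := ?_
        D12 := ?_
        wJ := ?_
        hD1 := ?_
        hD2 := ?_
        lf1 := ?_
        lf2 := ?_
        ne := ?_
        rc := ?_
        hTn := ?_
        hT := ?_
        dis := ?_
        yrc := ?_
        ytwo := ?_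
        hx := ?_
        xw := ?_
        hv := hHx
        lgo := ?_
        TD := ?_ }
    · intro i hi
      rcases le_cases i hi with h | rfl
      · rw [uw i h, uT i h]; exact hW.wT i h
      · rw [vw, vT]; exact hX'.vT
    · intro i hi
      rcases le_cases i hi with h | rfl
      · rw [uw i h, uD1 i h]; exact hW.wD1 i h
      · rw [vw, vD1]; exact hX'.vb
    · intro i hi
      rcases le_cases i hi with h | rfl
      · rw [uw i h, uD2 i h]; exact hW.wD2 i h
      · rw [vw, vD2]; exact hX'.vc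
    · intro i hi
      rcases le_cases i hi with h | rfl
      · rw [uT i h, uD1 i h]; exact hW.TD1 i h
      · rw [vT, vD1]; exact hX'.Tb
    · intro i hi
      rcases le_cases i hi with h | rfl
      · rw [uT i h, uD2 i h]; exact hW.TD2 i h
      · rw [vT, vD2]; exact hX'.Tc
    · intro i hi
      rcases le_cases i hi with h | rfl
      · rw [uD1 i h, uD2 i h]; exact hW.D12 i h
      · rw [vD1, vD2]; exact hX'.bc
    · intro i hi
      rcases le_cases i hi with h | rfl
      · rw [uw i h]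
        intro h1
        rcases (hmem _).1 h1 with h2 | h2
        · exact hW.wJ i h h2.1
        · by_cases hin : i = n
          · subst hin
            exact hW.xw h2.symm
          · have hlt : i < n := by omega
            have h3 : T n = T i ∨ T n = D1 i ∨ T n = D2 i :=
              bl_cases (hW.wT i h) (hW.wD1 i h) (hW.wD2 i h) (hW.TD1 i h) (hW.TD2 i h) (hW.D12 i h)
                (h2 ▸ hx.vT)
            rcases h3 with h3 | h3 | h3
            · exact hx.hT.not_P (h3 ▸ hW.hT i hlt)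
            · exact hx.hT.not_P (h3 ▸ hW.hD1 i h)
            · exact hx.hT.not_P (h3 ▸ hW.hD2 i h)
      · rw [vw]; exact hpJ'
    · intro i hi
      rcases le_cases i hi with h | rfl
      · rw [uD1 i h, ue1 i h]; exact (s1 i h).P (hW.hD1 i h)
      · rw [vD1, ve1]; exact hX'.hj
    · intro i hi
      rcases le_cases i hi with h | rfl
      · rw [uD2 i h, ue2 i h]; exact (s2 i h).P (hW.hD2 i h)
      · rw [vD2, ve2]; exact hX'.hk
    · intro i hi
      rcases le_cases i hi with h | rfl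
      · rw [ue1 i h]; exact (s1 i h).lf (hW.lf1 i h)
      · rw [ve1]; exact ⟨_, _, _, _, hl3⟩
    · intro i hi
      rcases le_cases i hi with h | rfl
      · rw [ue2 i h]; exact (s2 i h).lf (hW.lf2 i h)
      · rw [ve2]; exact ⟨_, _, _, _, hl4⟩
    · intro i hi
      rcases le_cases i hi with h | rfl
      · rw [ue1 i h, ue2 i h]; exact hW.ne i h
      · rw [ve1, ve2]; exact hqj.symm
    · intro i hi
      rcases le_cases i hi with h | rfl
      · rw [ue1 i h, ue2 i h]; exact (r1 i h _).1 (hW.rc i h)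
      · rw [ve1, ve2]; exact hRjq
    · rw [vT]; exact hX'.hT
    · intro i hi
      rcases lt_cases i hi with h | rfl
      · rw [uT i h.le, uy i h]; exact (sy i h).P (hW.hT i h)
      · rw [uT i le_rfl, vy]; exact hPT
    · intro i hi i' hi' hne
      rcases le_cases i hi with h | rfl
      · rcases le_cases i' hi' with h' | rfl
        · rw [ue1 i h, ue1 i' h', ← r1 i h]; exact hW.dis i h i' h' hne
        · rw [ue1 i h, ve1, ← r1 i h]; exact hwr i h
      · rcases le_cases i' hi' with h' | rfl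
        · rw [ve1, ue1 i' h']
          intro h1
          exact hwr i' h' ((r1 i' h' _).2 (rc_symm h1))
        · exact absurd rfl hne
    · intro i hi
      rcases lt_cases i hi with h | rfl
      · rw [uy i h, ue1 (i + 1) h]; exact (ry i h _).1 (hW.yrc i h)
      · rw [vy, ve1]; exact Relation.ReflTransGen.single ⟨b, hQb⟩
    · intro i hi
      rcases lt_cases i hi with h | rfl
      · rcases hW.ytwo i h with h1 | ⟨h1, h2, ⟨D0, h3⟩, h4, _⟩
        · left
          rw [uy i h]
          exact (sy i h).two h1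
        · right
          refine ⟨?_, ?_, ⟨D0, ?_⟩, ?_, ?_⟩
          · rw [ue1 i h.le, ue2 i h.le]; exact h1
          · rw [uy i h, ue1 (i + 1) h]; exact h2
          · rw [ue1 (i + 1) h, ue2 (i + 1) h]; exact (s1 (i + 1) h).Q h3
          · intro _
            by_cases h5 : i + 1 < n
            · rw [uy (i + 1) h5]
              exact (sy (i + 1) h5).two (h4 h5)
            · have h6 : i + 1 = n := by omega
              rw [h6, vy]
              exact hTw
          · intro h5
            omega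
      · left
        rw [vy]
        exact hTw
    · rw [vT]; exact hXx
    · rw [vw]; exact hxp'
    · rw [ve1, ve2]; exact hlgo
    · intro i hi
      rcases lt_cases i hi with h | rfl
      · rw [uT i h.le, uD1 (i + 1) h]; exact hW.TD i h
      · rw [uT i le_rfl, vD1]
        rintro h
        exact hx.hT j (h ▸ hlf.hD.2.1) hjJ
  · rw [vT]; exact hBad'

end Pool.Agent.Helper22.Inj
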